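import Mathlib
import Pool.Agent.N183.U8.StmF

/-!
# Project GS (helper183, MP_09799c_ag), part F4 (helper707): the invariant determinant form on a
stable plane
-/

set_option autoImplicit false

namespace Pool.Agent.N707.GSF4

open Module Pool.Agent.N183.U8

theorem F4 : S_F4 := by
  intro V _ _ _ S L hS hSL hgen U hU hn hns
  obtain ⟨p, hp0⟩ := U.subtype.exists_leftInverse_of_injective (Submodule.ker_subtype U)
  have hp : ∀ u : U, p u = u := fun u => LinearMap.congr_fun hp0 u
  let bas : Basis (Fin 2) ℂ U := finBasisOfFinrankEq ℂ U hn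
  let x0 : V →ₗ[ℂ] ℂ := (bas.coord 0).comp p
  let x1 : V →ₗ[ℂ] ℂ := (bas.coord 1).comp p
  let b : V →ₗ[ℂ] V →ₗ[ℂ] ℂ := x0.smulRight x1 - x1.smulRight x0
  have hb : ∀ u v, b u v = x0 u * x1 v - x1 u * x0 v := fun _ _ => rfl
  set e0 : V := ((bas 0 : U) : V) with he0
  set e1 : V := ((bas 1 : U) : V) with he1
  have m0 : e0 ∈ U := (bas 0).2
  have m1 : e1 ∈ U := (bas 1).2
  have h00 : x0 e0 = 1 := by simp [x0, he0, hp]
  have h01 : x0 e1 = 0 := by simp [x0, he1, hp]
  have h10 : x1 e0 = 0 := by simp [x1, he0, hp]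
  have h11 : x1 e1 = 1 := by simp [x1, he1, hp]
  have hco : ∀ u ∈ U, u = x0 u • e0 + x1 u • e1 := by
    intro u hu
    have h1 := bas.sum_repr ⟨u, hu⟩
    rw [Fin.sum_univ_two] at h1
    have h2 := congrArg (Subtype.val) h1
    have h3 : x0 u = bas.repr ⟨u, hu⟩ 0 := by
      simp only [x0, LinearMap.comp_apply, Basis.coord_apply]
      rw [hp ⟨u, hu⟩]
    have h4 : x1 u = bas.repr ⟨u, hu⟩ 1 := by
      simp only [x1, LinearMap.comp_apply, Basis.coord_apply]
      rw [hp ⟨u, hu⟩]
    rw [h3, h4]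
    exact h2.symm
  clear_value x0 x1 e0 e1
  -- the elements of `S`
  have hD : ∀ D ∈ S, ∀ u ∈ U, ∀ v ∈ U, b (D u) v + b u (D v) = 0 := by
    intro D hDS
    have hst : ∀ u ∈ U, D u ∈ U := hU D (hSL D hDS)
    have hDD : ∀ u, D (D u) = u := fun u => by
      rw [← End.mul_apply, hS D hDS, End.one_apply]
    have k0 : ∀ u ∈ U, x0 (D u) = x0 u * x0 (D e0) + x1 u * x0 (D e1) := by
      intro u hu
      conv_lhs => rw [hco u hu]
      simp only [map_add, map_smul, smul_eq_mul]
    have k1 : ∀ u ∈ U, x1 (D u) = x0 u * x1 (D e0) + x1 u * x1 (D e1) := by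
      intro u hu
      conv_lhs => rw [hco u hu]
      simp only [map_add, map_smul, smul_eq_mul]
    have r1 := k0 _ (hst e0 m0)
    have r2 := k1 _ (hst e0 m0)
    have r3 := k0 _ (hst e1 m1)
    have r4 := k1 _ (hst e1 m1)
    rw [hDD] at r1 r2 r3 r4
    rw [h00] at r1
    rw [h10] at r2
    rw [h01] at r3
    rw [h11] at r4
    have ht : x0 (D e0) + x1 (D e1) = 0 := by
      by_contra h0
      have q1 : x1 (D e0) = 0 := by
        have h1 : (x0 (D e0) + x1 (D e1)) * x1 (D e0) = 0 := by linear_combination -r2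
        exact (mul_eq_zero.1 h1).resolve_left h0
      have q2 : x0 (D e1) = 0 := by
        have h1 : (x0 (D e0) + x1 (D e1)) * x0 (D e1) = 0 := by linear_combination -r3
        exact (mul_eq_zero.1 h1).resolve_left h0
      have q3 : x0 (D e0) = x1 (D e1) := by
        have h1 : (x0 (D e0) + x1 (D e1)) * (x0 (D e0) - x1 (D e1)) = 0 := by
          linear_combination r4 - r1
        exact sub_eq_zero.1 ((mul_eq_zero.1 h1).resolve_left h0)
      obtain ⟨u, hu, hu'⟩ := hns D hDS (x0 (D e0))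
      apply hu'
      rw [hco (D u) (hst u hu), k0 u hu, k1 u hu, q1, q2, ← q3]
      conv_rhs => rw [hco u hu]
      rw [smul_add, smul_smul, smul_smul, mul_zero, mul_zero, add_zero, zero_add, mul_comm (x0 u),
        mul_comm (x1 u)]
    intro u hu v hv
    rw [hb, hb, k0 u hu, k1 u hu, k0 v hv, k1 v hv]
    linear_combination (x0 u * x1 v - x1 u * x0 v) * ht
  let L' : Submodule ℂ (End ℂ V) :=
    { carrier := {X | (∀ u ∈ U, X u ∈ U) ∧ ∀ u ∈ U, ∀ v ∈ U, b (X u) v + b u (X v) = 0}
      add_mem' := by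
        rintro X Y ⟨hX, hX'⟩ ⟨hY, hY'⟩
        refine ⟨fun u hu => U.add_mem (hX u hu) (hY u hu), fun u hu v hv => ?_⟩
        simp only [LinearMap.add_apply, map_add]
        linear_combination hX' u hu v hv + hY' u hu v hv
      zero_mem' := ⟨fun u _ => U.zero_mem, fun u _ v _ => by
        simp only [LinearMap.zero_apply, map_zero, add_zero]⟩
      smul_mem' := by
        rintro c X ⟨hX, hX'⟩
        refine ⟨fun u hu => U.smul_mem c (hX u hu), fun u hu v hv => ?_⟩
        simp only [LinearMap.smul_apply, map_smul, smul_eq_mul]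
        linear_combination c * hX' u hu v hv }
  have hL' : L ≤ L' := by
    refine hgen L' (fun D hDS => ⟨hU D (hSL D hDS), hD D hDS⟩) ?_
    rintro X ⟨hX, hX'⟩ Y ⟨hY, hY'⟩
    refine ⟨fun u hu => ?_, fun u hu v hv => ?_⟩
    · rw [LinearMap.sub_apply, End.mul_apply, End.mul_apply]
      exact U.sub_mem (hX _ (hY u hu)) (hY _ (hX u hu))
    · simp only [LinearMap.sub_apply, End.mul_apply, map_sub]
      linear_combination hX' _ (hY u hu) v hv - hY' _ (hX u hu) v hv + hX' u hu _ (hY v hv) -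
        hY' u hu _ (hX v hv)
  refine ⟨b, fun X hX => (hL' hX).2, e0, m0, e1, m1, ?_⟩
  rw [hb, h00, h11, h10, h01]
  norm_num

end Pool.Agent.N707.GSF4
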