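import Mathlib
import Pool.Agent.N964.GX.Stm
import Pool.Agent.H295R2.Avg

/-!
# GX/A3: the prime side of the explicit formula
-/

set_option autoImplicit false

namespace Pool.Agent.N707.GXA3

open Complex MeasureTheory Set Filter Topology
open Pool.Agent.H295R2 (Nice Lap)
open Pool.Agent.N964.GX
open Pool.Agent.N964.MX (kk)

/-- the line of integration -/
noncomputable def wl (y : ℝ) : ℂ := 5 / 4 + (y : ℂ) * I

lemma wl_re (y : ℝ) : (wl y).re = 5 / 4 := by
  simp [wl]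

lemma wl_im (y : ℝ) : (wl y).im = y := by simp [wl]

lemma wl_cont : Continuous wl := by unfold wl; fun_prop

lemma nw {s : ℝ} (hs : 0 < s) (hs1 : s ≤ 1) (y : ℝ) :
    (1 + y ^ 2) / 16 ≤ ‖(s : ℂ) ^ 2 - wl y ^ 2‖ := by
  have e : (s : ℂ) ^ 2 - wl y ^ 2 = (s - wl y) * (s + wl y) := by ring
  rw [e, norm_mul]
  have h1 : Real.sqrt (1 / 16 + y ^ 2) ≤ ‖(s : ℂ) - wl y‖ := by
    rw [Real.sqrt_le_iff]
    refine ⟨norm_nonneg _, ?_⟩
    rw [Complex.sq_norm, Complex.normSq_apply, Complex.sub_re, Complex.sub_im, wl_re, wl_im,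
      Complex.ofReal_re, Complex.ofReal_im]
    nlinarith
  have h2 : Real.sqrt (1 / 16 + y ^ 2) ≤ ‖(s : ℂ) + wl y‖ := by
    rw [Real.sqrt_le_iff]
    refine ⟨norm_nonneg _, ?_⟩
    rw [Complex.sq_norm, Complex.normSq_apply, Complex.add_re, Complex.add_im, wl_re, wl_im,
      Complex.ofReal_re, Complex.ofReal_im]
    nlinarith
  calc (1 + y ^ 2) / 16 ≤ 1 / 16 + y ^ 2 := by nlinarith [sq_nonneg y]
    _ = Real.sqrt (1 / 16 + y ^ 2) * Real.sqrt (1 / 16 + y ^ 2) :=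
      (Real.mul_self_sqrt (by positivity)).symm
    _ ≤ _ := mul_le_mul h1 h2 (Real.sqrt_nonneg _) (norm_nonneg _)

lemma nw_ne {s : ℝ} (hs : 0 < s) (hs1 : s ≤ 1) (y : ℝ) : (s : ℂ) ^ 2 - wl y ^ 2 ≠ 0 := by
  have h := nw hs hs1 y
  have h2 : 0 < (1 + y ^ 2) / 16 := by positivity
  exact norm_pos_iff.1 (lt_of_lt_of_le h2 h)

/-- the rational factor -/
noncomputable def rf (s y : ℝ) : ℂ := 2 * s / (s ^ 2 - wl y ^ 2)

lemma rf_cont {s : ℝ} (hs : 0 < s) (hs1 : s ≤ 1) : Continuous (rf s) := by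
  unfold rf
  refine Continuous.div continuous_const ?_ (nw_ne hs hs1)
  exact continuous_const.sub (wl_cont.pow 2)

lemma rf_norm {s : ℝ} (hs : 0 < s) (hs1 : s ≤ 1) (y : ℝ) :
    ‖rf s y‖ ≤ 32 * s * (1 + y ^ 2)⁻¹ := by
  unfold rf
  have h := nw hs hs1 y
  have h2 : 0 < (1 + y ^ 2) / 16 := by positivity
  rw [norm_div, norm_mul, Complex.norm_real, Real.norm_of_nonneg hs.le, Complex.norm_ofNat]
  calc 2 * s / ‖(s : ℂ) ^ 2 - wl y ^ 2‖ ≤ 2 * s / ((1 + y ^ 2) / 16) :=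
        div_le_div_of_nonneg_left (by positivity) h2 h
    _ = _ := by field_simp; ring

/-- the function whose Laplace transform is needed -/
noncomputable def kt (s u : ℝ) : ℂ := ((1 - Real.exp (-(2 * s * max u 0)) : ℝ) : ℂ)

lemma kt_cont (s : ℝ) : Continuous (kt s) := by unfold kt; fun_prop

lemma kt_neg (s : ℝ) {u : ℝ} (hu : u ≤ 0) : kt s u = 0 := by
  unfold kt; rw [max_eq_right hu]; simp

lemma kt_nice {s : ℝ} (hs : 0 < s) : Nice (kt s) 1 0 0 where
  meas := (kt_cont s).measurable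
  bound u := by
    simp only [zero_mul, Real.exp_zero, mul_one]
    unfold kt
    have h1 := Real.exp_pos (-(2 * s * max u 0))
    have h2 : Real.exp (-(2 * s * max u 0)) ≤ 1 := by
      rw [Real.exp_le_one_iff]
      have := mul_nonneg (mul_nonneg zero_le_two hs.le) (le_max_right u 0)
      linarith
    rw [Complex.norm_real, Real.norm_eq_abs, abs_of_nonneg (by linarith)]
    linarith
  zero u hu := kt_neg s hu.le

lemma Lap_kt {s : ℝ} (hs : 0 < s) {z : ℂ} (hz : 0 < z.re) :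
    Lap (kt s) z = 2 * s / (z * (z + 2 * s)) := by
  unfold Lap
  have h1 : ∫ u in Ioi (0 : ℝ), kt s u * cexp (-(z * u)) = ∫ u : ℝ, kt s u * cexp (-(z * u)) := by
    apply setIntegral_eq_integral_of_forall_compl_eq_zero
    intro u hu
    rw [kt_neg s (not_lt.1 hu), zero_mul]
  rw [← h1]
  have h2 : ∫ u in Ioi (0 : ℝ), kt s u * cexp (-(z * u)) =
      ∫ u in Ioi (0 : ℝ), (cexp ((-z) * u) - cexp ((-(z + 2 * s)) * u)) := by
    apply setIntegral_congr_fun measurableSet_Ioi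
    intro u hu
    simp only
    unfold kt
    rw [max_eq_left (le_of_lt hu)]
    push_cast
    rw [sub_mul, one_mul, ← Complex.exp_add]
    congr 2 <;> ring
  have hz1 : (-z).re < 0 := by simpa using hz
  have hz2 : (-(z + 2 * s)).re < 0 := by
    simp
    nlinarith
  have hz0 : z ≠ 0 := by rintro rfl; simp at hz
  have hz3 : z + 2 * s ≠ 0 := by
    intro h
    rw [h] at hz2
    simp at hz2
  rw [h2, integral_sub (integrableOn_exp_mul_complex_Ioi hz1 0)
    (integrableOn_exp_mul_complex_Ioi hz2 0), integral_exp_mul_complex_Ioi hz1,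
    integral_exp_mul_complex_Ioi hz2]
  simp only [Complex.ofReal_zero, mul_zero, Complex.exp_zero]
  field_simp
  ring

lemma Lap_line {s : ℝ} (hs : 0 < s) (hs1 : s ≤ 1) (y : ℝ) :
    Lap (kt s) (((5 / 4 - s : ℝ) : ℂ) + y * I) = -rf s y := by
  rw [Lap_kt hs (by simp; linarith)]
  have e1 : ((5 / 4 - s : ℝ) : ℂ) + y * I = wl y - s := by unfold wl; push_cast; ring
  have h := nw_ne hs hs1 y
  unfold rf
  rw [e1, ← neg_div_neg_eq, ← neg_div]
  congr 1
  ring

/-- the basic integral -/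
lemma Iint {s : ℝ} (hs : 0 < s) (hs1 : s ≤ 1) (α : ℝ) :
    Integrable (fun y : ℝ => cexp (α * wl y) * rf s y) ∧
    ∫ y : ℝ, cexp (α * wl y) * rf s y = -(2 * Real.pi) * (cexp (s * α) * kt s α) := by
  have hc : 0 < 5 / 4 - s := by linarith
  have hint0 : Integrable (rf s) := by
    refine (integrable_inv_one_add_sq.const_mul (32 * s)).mono'
      (rf_cont hs hs1).aestronglyMeasurable (Eventually.of_forall fun y => rf_norm hs hs1 y)
  have hne : ∀ y : ℝ, ‖cexp (α * wl y)‖ = Real.exp (α * (5 / 4)) := by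
    intro y
    rw [Complex.norm_exp, Complex.re_ofReal_mul, wl_re]
  have hcont : Continuous (fun y : ℝ => cexp (α * wl y)) :=
    Complex.continuous_exp.comp (continuous_const.mul wl_cont)
  refine ⟨?_, ?_⟩
  · refine (hint0.norm.const_mul (Real.exp (α * (5 / 4)))).mono'
      (hcont.mul (rf_cont hs hs1)).aestronglyMeasurable (Eventually.of_forall fun y => ?_)
    rw [norm_mul, hne]
  · have h2 := Pool.Agent.H295R2.inversion (kt_nice hs) hc (kt_cont s) ?_ α
    · have h3 : ∀ ξ : ℝ, Lap (kt s) (((5 / 4 - s : ℝ) : ℂ) + 2 * Real.pi * ξ * I) *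
          cexp ((((5 / 4 - s : ℝ) : ℂ) + 2 * Real.pi * ξ * I) * α) =
          (fun y : ℝ => -(cexp (-(s * α)) * (cexp (α * wl y) * rf s y))) ((2 * Real.pi) * ξ) := by
        intro ξ
        have h4 := Lap_line hs hs1 (2 * Real.pi * ξ)
        have e1 : ((5 / 4 - s : ℝ) : ℂ) + 2 * Real.pi * ξ * I =
          ((5 / 4 - s : ℝ) : ℂ) + ((2 * Real.pi * ξ : ℝ) : ℂ) * I := by push_cast; ring
        simp only
        rw [e1, h4, ← mul_assoc, ← Complex.exp_add]
        have e2 : (-((s : ℂ) * α) + α * wl (2 * Real.pi * ξ)) =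
            (((5 / 4 - s : ℝ) : ℂ) + ((2 * Real.pi * ξ : ℝ) : ℂ) * I) * α := by
          unfold wl; push_cast; ring
        rw [e2]
        ring
      simp_rw [h3] at h2
      rw [Measure.integral_comp_mul_left (fun y : ℝ =>
        -(cexp (-(s * α)) * (cexp (α * wl y) * rf s y))) (2 * Real.pi), integral_neg,
        integral_const_mul, abs_of_pos (by positivity)] at h2
      rw [h2, Complex.real_smul]
      have e3 : cexp (s * α) * cexp (-(s * α)) = 1 := by rw [← Complex.exp_add]; simp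
      have hpi : (Real.pi : ℂ) ≠ 0 := by exact_mod_cast Real.pi_ne_zero
      push_cast
      generalize (∫ y : ℝ, cexp (α * wl y) * rf s y) = J
      generalize cexp (s * α) = E1 at e3 ⊢
      generalize cexp (-(s * α)) = E2 at e3 ⊢
      field_simp
      linear_combination (-J) * e3
    · have h5 : Integrable (fun y : ℝ => Lap (kt s) (((5 / 4 - s : ℝ) : ℂ) + y * I)) := by
        refine hint0.neg.congr (Eventually.of_forall fun y => ?_)
        simp only [Pi.neg_apply]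
        rw [Lap_line hs hs1]
      refine (h5.comp_mul_left' (R := 2 * Real.pi) (by positivity)).congr
        (Eventually.of_forall fun ξ => ?_)
      simp only
      push_cast
      ring_nf

/-! ### The kernel -/

/-- the normalising constant -/
noncomputable def ch (l s : ℝ) : ℝ := Real.cosh (l * s) - 1

lemma ch_ge {l s : ℝ} (hls : 0 < l * s) : (l * s) ^ 2 / 2 ≤ ch l s := by
  unfold ch
  have h2 := Real.cosh_two_mul (l * s / 2)
  rw [show 2 * (l * s / 2) = l * s by ring] at h2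
  have h3 := Real.cosh_sq (l * s / 2)
  have h1 : l * s / 2 ≤ Real.sinh (l * s / 2) := Real.self_le_sinh_iff.2 (by positivity)
  nlinarith

lemma Dk_eq (l s y : ℝ) : Dk l s (wl y) =
    rf s y * ((Complex.cosh (l * wl y) - 1) / ((ch l s : ℝ) : ℂ)) := rfl

lemma cosh_norm {l : ℝ} (hl : 0 ≤ l) (y : ℝ) :
    ‖Complex.cosh (l * wl y) - 1‖ ≤ 2 * Real.exp (5 / 4 * l) := by
  have h1 : ‖cexp (l * wl y)‖ = Real.exp (5 / 4 * l) := by
    rw [Complex.norm_exp, Complex.re_ofReal_mul, wl_re, mul_comm]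
  have h2 : ‖cexp (-(l * wl y))‖ = Real.exp (-(5 / 4 * l)) := by
    rw [Complex.norm_exp, Complex.neg_re, Complex.re_ofReal_mul, wl_re, mul_comm]
  have h3 : Real.exp (-(5 / 4 * l)) ≤ 1 := by rw [Real.exp_le_one_iff]; linarith
  have h4 : 1 ≤ Real.exp (5 / 4 * l) := Real.one_le_exp (by linarith)
  have h5 : ‖Complex.cosh (l * wl y)‖ ≤ (Real.exp (5 / 4 * l) + Real.exp (-(5 / 4 * l))) / 2 := by
    rw [Complex.cosh, norm_div, Complex.norm_ofNat]
    refine div_le_div_of_nonneg_right ?_ (by norm_num)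
    rw [← h1, ← h2]
    exact norm_add_le _ _
  calc ‖Complex.cosh (l * wl y) - 1‖ ≤ ‖Complex.cosh (l * wl y)‖ + ‖(1 : ℂ)‖ := norm_sub_le _ _
    _ ≤ _ := by rw [norm_one]; linarith

lemma Dk_norm {l s : ℝ} (hl : 1 ≤ l) (hs : 0 < s) (hs1 : s ≤ 1) (y : ℝ) :
    ‖Dk l s (wl y)‖ ≤ 128 * Real.exp (5 / 4 * l) / (l ^ 2 * s) * (1 + y ^ 2)⁻¹ := by
  have hc := ch_ge (l := l) (s := s) (by positivity)
  have hls : 0 < (l * s) ^ 2 / 2 := by positivity
  have hc0 : 0 < ch l s := lt_of_lt_of_le hls hc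
  rw [Dk_eq, norm_mul, norm_div, Complex.norm_real, Real.norm_of_nonneg hc0.le]
  calc ‖rf s y‖ * (‖Complex.cosh (l * wl y) - 1‖ / ch l s)
      ≤ (32 * s * (1 + y ^ 2)⁻¹) * ((2 * Real.exp (5 / 4 * l)) / ((l * s) ^ 2 / 2)) := by
        refine mul_le_mul (rf_norm hs hs1 y) ?_ (by positivity) (by positivity)
        exact div_le_div₀ (by positivity) (cosh_norm (by linarith) y) hls hc
    _ = _ := by field_simp; ring

lemma Dk_cont {l s : ℝ} (hs : 0 < s) (hs1 : s ≤ 1) : Continuous (fun y => Dk l s (wl y)) := by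
  have h : (fun y => Dk l s (wl y)) =
    fun y => rf s y * ((Complex.cosh (l * wl y) - 1) / ((ch l s : ℝ) : ℂ)) := rfl
  rw [h]
  refine (rf_cont hs hs1).mul ((Continuous.sub ?_ continuous_const).div_const _)
  exact Complex.continuous_cosh.comp (continuous_const.mul wl_cont)

/-- the Fourier integral of the kernel -/
lemma Jint {l s u : ℝ} (hl : 1 ≤ l) (hs : 0 < s) (hs1 : s ≤ 1) (hu : 0 ≤ u) :
    ∫ y : ℝ, cexp (-(u * wl y)) * Dk l s (wl y) =
      if u ≤ l then ((-(2 * Real.pi * kk l s u) : ℝ) : ℂ) else 0 := by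
  have hc := ch_ge (l := l) (s := s) (by positivity)
  have hls : 0 < (l * s) ^ 2 / 2 := by positivity
  have hc0 : 0 < ch l s := lt_of_lt_of_le hls hc
  have hcC : ((ch l s : ℝ) : ℂ) ≠ 0 := by exact_mod_cast hc0.ne'
  have i1 := Iint hs hs1 (l - u)
  have i2 := Iint hs hs1 (-l - u)
  have i3 := Iint hs hs1 (-u)
  rw [kt_neg s (by linarith : -l - u ≤ 0)] at i2
  rw [kt_neg s (by linarith : -u ≤ 0)] at i3
  have e : ∀ y : ℝ, cexp (-(u * wl y)) * Dk l s (wl y) =
      ((ch l s : ℝ) : ℂ)⁻¹ * (((1 / 2 : ℂ) * (cexp (((l - u : ℝ) : ℂ) * wl y) * rf s y) +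
        (1 / 2 : ℂ) * (cexp (((-l - u : ℝ) : ℂ) * wl y) * rf s y)) -
        cexp (((-u : ℝ) : ℂ) * wl y) * rf s y) := by
    intro y
    rw [Dk_eq, Complex.cosh]
    have e1 : cexp (((l - u : ℝ) : ℂ) * wl y) = cexp (-(u * wl y)) * cexp (l * wl y) := by
      rw [← Complex.exp_add]; congr 1; push_cast; ring
    have e2 : cexp (((-l - u : ℝ) : ℂ) * wl y) = cexp (-(u * wl y)) * cexp (-(l * wl y)) := by
      rw [← Complex.exp_add]; congr 1; push_cast; ring
    have e3 : cexp (((-u : ℝ) : ℂ) * wl y) = cexp (-(u * wl y)) := by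
      congr 1; push_cast; ring
    rw [e1, e2, e3]
    field_simp
  simp_rw [e]
  have hI : Integrable (fun y : ℝ => (1 / 2 : ℂ) * (cexp (((l - u : ℝ) : ℂ) * wl y) * rf s y) +
        (1 / 2 : ℂ) * (cexp (((-l - u : ℝ) : ℂ) * wl y) * rf s y)) :=
    (i1.1.const_mul _).add (i2.1.const_mul _)
  rw [integral_const_mul, integral_sub hI i3.1,
    integral_add (i1.1.const_mul _) (i2.1.const_mul _), integral_const_mul, integral_const_mul,
    i1.2, i2.2, i3.2]
  split_ifs with h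
  · have h2 : cexp (s * ((l - u : ℝ) : ℂ)) * kt s (l - u) =
        ((2 * Real.sinh (s * (l - u)) : ℝ) : ℂ) := by
      unfold kt
      rw [max_eq_left (by linarith : 0 ≤ l - u), ← Complex.ofReal_mul, ← Complex.ofReal_exp,
        ← Complex.ofReal_mul, Real.sinh_eq]
      congr 1
      have h3 : Real.exp (-(2 * s * (l - u))) * Real.exp (s * (l - u)) =
        Real.exp (-(s * (l - u))) := by rw [← Real.exp_add]; congr 1; ring
      linear_combination (-1 : ℝ) * h3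
    rw [h2]
    unfold kk
    have e4 : Real.cosh (l * s) - 1 = ch l s := rfl
    rw [e4]
    push_cast
    field_simp
    ring
  · rw [kt_neg s (by linarith : l - u ≤ 0)]
    simp

/-! ### The Dirichlet series -/

/-- the terms of the series -/
noncomputable def tm (a : ℕ → ℂ) (n : ℕ) (v : ℝ) : ℂ := a n * (n : ℂ) ^ (-(7 / 4 + (v : ℂ) * I))

lemma tm_norm {a : ℕ → ℂ} (h0 : a 0 = 0) (n : ℕ) (v : ℝ) :
    ‖tm a n v‖ = ‖a n‖ * (n : ℝ) ^ (-(7 / 4) : ℝ) := by
  unfold tm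
  rcases Nat.eq_zero_or_pos n with rfl | hn
  · rw [h0]; simp
  · rw [norm_mul, Complex.norm_natCast_cpow_of_pos hn]
    congr 2
    simp

lemma tm_cont {a : ℕ → ℂ} (h0 : a 0 = 0) (n : ℕ) : Continuous (tm a n) := by
  unfold tm
  rcases Nat.eq_zero_or_pos n with rfl | hn
  · rw [h0]; simp only [zero_mul]; exact continuous_const
  · refine continuous_const.mul (Continuous.const_cpow (by fun_prop) (Or.inl ?_))
    exact_mod_cast hn.ne'

lemma tm_split (a : ℕ → ℂ) {n : ℕ} (hn : 0 < n) (v t : ℝ) : tm a n v =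
    a n * (n : ℂ) ^ (-(1 / 2 + (t : ℂ) * I)) * cexp (-((Real.log n : ℝ) * wl (v - t))) := by
  have hn0 : (n : ℂ) ≠ 0 := by exact_mod_cast hn.ne'
  unfold tm
  rw [mul_assoc, Complex.cpow_def_of_ne_zero hn0, Complex.cpow_def_of_ne_zero hn0, ← Complex.exp_add]
  congr 2
  have h1 : Complex.log (n : ℂ) = ((Real.log n : ℝ) : ℂ) := (Complex.natCast_log (n := n)).symm
  rw [h1]
  unfold wl
  push_cast
  ring

section Main
variable {k : ℕ} {A : ℝ} {lc : ℝ → ℝ} {F : ℂ → ℂ} {a : ℕ → ℂ}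

/-- the sum -/
noncomputable def Z (a : ℕ → ℂ) (v : ℝ) : ℂ := ∑' n, tm a n v

lemma Z_cont (h0 : a 0 = 0) (hs : Summable (fun n : ℕ => ‖a n‖ * (n : ℝ) ^ (-(7 / 4) : ℝ))) :
    Continuous (Z a) :=
  continuous_tsum (tm_cont h0) hs fun n v => (tm_norm h0 n v).le

lemma Z_norm (h0 : a 0 = 0) (hs : Summable (fun n : ℕ => ‖a n‖ * (n : ℝ) ^ (-(7 / 4) : ℝ)))
    (hA : ∑' n : ℕ, ‖a n‖ * (n : ℝ) ^ (-(7 / 4) : ℝ) ≤ A) (v : ℝ) : ‖Z a v‖ ≤ A := by
  have h1 : Summable (fun n => ‖tm a n v‖) := by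
    simp_rw [tm_norm h0]; exact hs
  refine (norm_tsum_le_tsum_norm h1).trans ?_
  simp_rw [tm_norm h0]
  exact hA

lemma G_int {l s : ℝ} (hl : 1 ≤ l) (hs : 0 < s) (hs1 : s ≤ 1) :
    Integrable (fun y => Dk l s (wl y)) :=
  (integrable_inv_one_add_sq.const_mul (128 * Real.exp (5 / 4 * l) / (l ^ 2 * s))).mono'
    (Dk_cont hs hs1).aestronglyMeasurable (Eventually.of_forall fun y => Dk_norm hl hs hs1 y)

/-- the integral over the whole line -/
lemma total {l s : ℝ} (hl : 1 ≤ l) (hs : 0 < s) (hs1 : s ≤ 1) (t : ℝ) (h0 : a 0 = 0)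
    (hS : Summable (fun n : ℕ => ‖a n‖ * (n : ℝ) ^ (-(7 / 4) : ℝ))) :
    ∫ v : ℝ, Z a v * Dk l s (wl (v - t)) = -(2 * Real.pi) *
      ∑ n ∈ Finset.Icc 1 ⌊Real.exp l⌋₊, a n * (n : ℂ) ^ (-(1 / 2 + (t : ℂ) * I)) *
        ((kk l s (Real.log n) : ℝ) : ℂ) := by
  have hG := G_int hl hs hs1
  have hGt : Integrable (fun v : ℝ => Dk l s (wl (v - t))) := hG.comp_sub_right t
  have hFi : ∀ n, Integrable (fun v : ℝ => tm a n v * Dk l s (wl (v - t))) := by
    intro n
    refine (hGt.norm.const_mul (‖a n‖ * (n : ℝ) ^ (-(7 / 4) : ℝ))).mono'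
      (((tm_cont h0 n).aestronglyMeasurable).mul hGt.aestronglyMeasurable)
      (Eventually.of_forall fun v => ?_)
    rw [norm_mul, tm_norm h0]
  have hFs : Summable (fun n => ∫ v : ℝ, ‖tm a n v * Dk l s (wl (v - t))‖) := by
    have e : ∀ n, ∫ v : ℝ, ‖tm a n v * Dk l s (wl (v - t))‖ =
        (‖a n‖ * (n : ℝ) ^ (-(7 / 4) : ℝ)) * ∫ v : ℝ, ‖Dk l s (wl (v - t))‖ := by
      intro n
      rw [← integral_const_mul]
      refine integral_congr_ae (Eventually.of_forall fun v => ?_)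
      simp only
      rw [norm_mul, tm_norm h0]
    simp_rw [e]
    exact hS.mul_right _
  have h1 := (hasSum_integral_of_summable_integral_norm hFi hFs).tsum_eq
  have h2 : ∀ v : ℝ, ∑' n, tm a n v * Dk l s (wl (v - t)) = Z a v * Dk l s (wl (v - t)) := by
    intro v
    rw [tsum_mul_right]
    rfl
  simp_rw [h2] at h1
  rw [← h1]
  have h3 : ∀ n : ℕ, ∫ v : ℝ, tm a n v * Dk l s (wl (v - t)) =
      if n ∈ Finset.Icc 1 ⌊Real.exp l⌋₊ then
        -(2 * Real.pi) * (a n * (n : ℂ) ^ (-(1 / 2 + (t : ℂ) * I)) *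
        ((kk l s (Real.log n) : ℝ) : ℂ)) else 0 := by
    intro n
    rcases Nat.eq_zero_or_pos n with rfl | hn
    · have : ∀ v, tm a 0 v = 0 := by intro v; unfold tm; rw [h0, zero_mul]
      simp_rw [this]
      simp
    · have e : ∀ v : ℝ, tm a n v * Dk l s (wl (v - t)) =
          (fun y : ℝ => (a n * (n : ℂ) ^ (-(1 / 2 + (t : ℂ) * I))) *
            (cexp (-((Real.log n : ℝ) * wl y)) * Dk l s (wl y))) (v - t) := by
        intro v
        simp only
        rw [tm_split a hn v t]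
        ring
      simp_rw [e]
      rw [integral_sub_right_eq_self (fun y : ℝ => (a n * (n : ℂ) ^ (-(1 / 2 + (t : ℂ) * I))) *
            (cexp (-((Real.log n : ℝ) * wl y)) * Dk l s (wl y))) t, integral_const_mul,
        Jint hl hs hs1 (Real.log_nonneg (by exact_mod_cast hn))]
      have hiff : n ∈ Finset.Icc 1 ⌊Real.exp l⌋₊ ↔ Real.log n ≤ l := by
        rw [Finset.mem_Icc, Nat.le_floor_iff (Real.exp_pos _).le,
          Real.log_le_iff_le_exp (by exact_mod_cast hn)]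
        exact ⟨fun h => h.2, fun h => ⟨hn, h⟩⟩
      by_cases h : Real.log n ≤ l
      · rw [if_pos h, if_pos (hiff.2 h)]
        push_cast
        ring
      · rw [if_neg h, if_neg (fun h' => h (hiff.1 h')), mul_zero]
  simp_rw [h3]
  rw [tsum_eq_sum (s := Finset.Icc 1 ⌊Real.exp l⌋₊) (fun n hn => if_neg hn), Finset.mul_sum]
  exact Finset.sum_congr rfl fun n hn => if_pos hn

/-- the tails -/
lemma tails {l s t V1 V2 : ℝ} (hl : 1 ≤ l) (hs : 0 < s) (hs1 : s ≤ 1) (ht : 4 ≤ t)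
    (h0 : a 0 = 0) (hA0 : 0 ≤ A) (hS : Summable (fun n : ℕ => ‖a n‖ * (n : ℝ) ^ (-(7 / 4) : ℝ)))
    (hA : ∑' n : ℕ, ‖a n‖ * (n : ℝ) ^ (-(7 / 4) : ℝ) ≤ A) (hV1 : V1 ≤ t / 2)
    (hV2 : 3 * t / 2 ≤ V2) :
    ‖∫ v in (Ioc V1 V2)ᶜ, Z a v * Dk l s (wl (v - t))‖ ≤
      512 * Real.pi * A * (Real.exp (5 / 4 * l) / t) / (l ^ 2 * s) := by
  set T : ℝ := t / 2 with hT
  have hT0 : 0 < T := by rw [hT]; linarith
  set M : ℝ := 128 * Real.exp (5 / 4 * l) / (l ^ 2 * s) with hM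
  have hM0 : 0 ≤ M := by positivity
  have hg : Integrable (fun v : ℝ => (A * M * (2 / T ^ 2)) * (1 + ((v - t) / T) ^ 2)⁻¹) :=
    ((integrable_inv_one_add_sq.comp_div hT0.ne').comp_sub_right t).const_mul _
  have h1 : ‖∫ v in (Ioc V1 V2)ᶜ, Z a v * Dk l s (wl (v - t))‖ ≤
      ∫ v in (Ioc V1 V2)ᶜ, (A * M * (2 / T ^ 2)) * (1 + ((v - t) / T) ^ 2)⁻¹ := by
    refine norm_integral_le_of_norm_le hg.integrableOn ?_
    rw [ae_restrict_iff' measurableSet_Ioc.compl]
    refine Eventually.of_forall fun v hv => ?_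
    have hv' : T ^ 2 ≤ (v - t) ^ 2 := by
      rw [mem_compl_iff, mem_Ioc, not_and_or, not_lt, not_le] at hv
      rcases hv with hv | hv
      · nlinarith
      · nlinarith
    rw [norm_mul]
    have h2 := Z_norm h0 hS hA v
    have h3 := Dk_norm hl hs hs1 (v - t)
    rw [← hM] at h3
    have h4 : (1 + (v - t) ^ 2)⁻¹ ≤ (2 / T ^ 2) * (1 + ((v - t) / T) ^ 2)⁻¹ := by
      have e : (2 / T ^ 2) * (1 + ((v - t) / T) ^ 2)⁻¹ = ((T ^ 2 + (v - t) ^ 2) / 2)⁻¹ := by
        have : T ^ 2 + (v - t) ^ 2 ≠ 0 := by positivity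
        have : 1 + ((v - t) / T) ^ 2 ≠ 0 := by positivity
        field_simp
      rw [e]
      refine inv_anti₀ (by positivity) ?_
      linarith
    calc ‖Z a v‖ * ‖Dk l s (wl (v - t))‖ ≤ A * (M * (1 + (v - t) ^ 2)⁻¹) :=
          mul_le_mul h2 h3 (norm_nonneg _) hA0
      _ ≤ A * (M * ((2 / T ^ 2) * (1 + ((v - t) / T) ^ 2)⁻¹)) := by gcongr
      _ = _ := by ring
  refine h1.trans ((setIntegral_le_integral hg (Eventually.of_forall fun v => ?_)).trans ?_)
  · simp only [Pi.zero_apply]; positivity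
  · rw [integral_const_mul, integral_sub_right_eq_self (fun y : ℝ => (1 + (y / T) ^ 2)⁻¹) t,
      Measure.integral_comp_div (fun y : ℝ => (1 + y ^ 2)⁻¹) T, integral_univ_inv_one_add_sq,
      abs_of_pos hT0, smul_eq_mul]
    refine le_of_eq ?_
    rw [hM, hT]
    field_simp
    ring

end Main

/-- GX/A3: the primes -/
theorem prim : S_prim := by
  intro k A lc F a h
  have hG := h.good
  have h0 : a 0 = 0 := hG.ha1 0 (by norm_num)
  have hA := h.hA
  have hA0 : 0 ≤ A := by linarith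
  refine ⟨512 * A, by linarith, ?_⟩
  intro t s l V1 V2 ht hs hs1 hl hlt hV1 hV2
  have hle : V1 ≤ V2 := by linarith [hV1.2, hV2.1]
  have hV1' : 1 ≤ V1 := by linarith [hV1.1]
  have hH : Integrable (fun v : ℝ => Z a v * Dk l s (wl (v - t))) := by
    have hGt : Integrable (fun v : ℝ => Dk l s (wl (v - t))) := (G_int hl hs hs1).comp_sub_right t
    refine (hGt.norm.const_mul A).mono' (((Z_cont h0 hG.has).aestronglyMeasurable).mul
      hGt.aestronglyMeasurable) (Eventually.of_forall fun v => ?_)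
    rw [norm_mul]
    exact mul_le_mul_of_nonneg_right (Z_norm h0 hG.has hG.ha v) (norm_nonneg _)
  have h1 : (∫ v in V1..V2, deriv F (7 / 4 + v * I) / F (7 / 4 + v * I) *
        Dk l s (5 / 4 + ((v - t : ℝ) : ℂ) * I)) =
      -∫ v in Ioc V1 V2, Z a v * Dk l s (wl (v - t)) := by
    rw [intervalIntegral.integral_of_le hle, ← integral_neg]
    refine setIntegral_congr_fun measurableSet_Ioc fun v hv => ?_
    rw [hG.ld (7 / 4 + v * I) (by simp; norm_num) (by simp; linarith [hv.1]), neg_mul]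
    rfl
  have h2 := integral_add_compl (measurableSet_Ioc (a := V1) (b := V2)) hH
  have h3 := total hl hs hs1 t h0 hG.has
  have h4 := tails hl hs hs1 ht h0 hA0 hG.has hG.ha hV1.2 hV2.1
  set R := ∫ v in (Ioc V1 V2)ᶜ, Z a v * Dk l s (wl (v - t)) with hR
  set Sg : ℂ := ∑ n ∈ Finset.Icc 1 ⌊Real.exp l⌋₊, a n * (n : ℂ) ^ (-(1 / 2 + (t : ℂ) * I)) *
        ((kk l s (Real.log n) : ℝ) : ℂ) with hSg
  have h5 : PSa a l t (kk l s) = Sg.re := by
    unfold PSa
    rw [hSg]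
    congr 1
    refine Finset.sum_congr rfl fun n hn => ?_
    rw [Finset.mem_Icc] at hn
    have hn0 : (n : ℂ) ≠ 0 := by
      have : 0 < n := hn.1
      exact_mod_cast this.ne'
    have e1 : (n : ℂ) ^ (-(1 / 2 + (t : ℂ) * I)) =
        ((Real.sqrt n : ℝ) : ℂ)⁻¹ * (n : ℂ) ^ (-(t : ℂ) * I) := by
      rw [show -(1 / 2 + (t : ℂ) * I) = -(1 / 2) + -(t : ℂ) * I by ring, Complex.cpow_add _ _ hn0,
        Complex.cpow_neg, Real.sqrt_eq_rpow, Complex.ofReal_cpow (Nat.cast_nonneg n)]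
      push_cast
      rfl
    rw [e1]
    push_cast
    ring
  have h6 : (∫ v in V1..V2, deriv F (7 / 4 + v * I) / F (7 / 4 + v * I) *
        Dk l s (5 / 4 + ((v - t : ℝ) : ℂ) * I)) = 2 * Real.pi * Sg + R := by
    rw [h1]
    linear_combination (-1 : ℂ) * h2 - h3
  have hpi := Real.pi_pos
  rw [h5, h6]
  have h7 : (2 * (Real.pi : ℂ) * Sg + R).re = 2 * Real.pi * Sg.re + R.re := by
    rw [Complex.add_re]
    congr 1
    have : 2 * (Real.pi : ℂ) * Sg = ((2 * Real.pi : ℝ) : ℂ) * Sg := by push_cast; ring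
    rw [this, Complex.re_ofReal_mul]
  rw [h7]
  have h8 : 1 / Real.pi * (2 * Real.pi * Sg.re + R.re) - 2 * Sg.re = R.re / Real.pi := by
    field_simp
    ring
  rw [h8, abs_div, abs_of_pos hpi, div_le_iff₀ hpi]
  have h9 : Real.exp (5 / 4 * l) / t ≤ 1 := by
    rw [div_le_one (by linarith)]
    refine (Real.exp_le_exp.2 ?_).trans hlt
    linarith
  have h10 : 0 < l ^ 2 * s := by positivity
  calc |R.re| ≤ ‖R‖ := Complex.abs_re_le_norm R
    _ ≤ _ := h4
    _ ≤ 512 * Real.pi * A * 1 / (l ^ 2 * s) := by gcongr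
    _ = 512 * A / (l ^ 2 * s) * Real.pi := by ring

end Pool.Agent.N707.GXA3
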