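import Pool.Agent.N502.FR.Stm

set_option autoImplicit false

/-! Project FR (helper502), part SML (helper707): difference of the arguments for small `t`. -/

open Finset

namespace Pool.Agent.N707.FR_SML

open Pool.Agent.N502.FR

theorem part (hATN : S_ATN) (hSQS : S_SQS) {m : ℕ} {R t : ℝ} (hm : 1 ≤ m) (hR : 1 / 2 ≤ R)
    (ht : 0 < t) (htR : t ≤ R) (X : Finset ℕ) (hX : ∀ h ∈ X, 2 * R < h) :
    |∑ h ∈ X, Real.arctan (t / h) -
      ∑ h ∈ X, ∑ j ∈ range m, (-1 : ℝ) ^ j * (t / h) ^ (2 * j + 1) / (2 * j + 1)| ≤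
      2 * (1 / 4) ^ m * t := by
  have hR0 : 0 < R := by linarith
  have hpow : ((1:ℝ) / 2) ^ (2 * m - 1) = 2 * (1 / 4) ^ m := by
    have e : 2 * m = (2 * m - 1) + 1 := by omega
    have h1 : ((1:ℝ) / 2) ^ (2 * m) = (1 / 2) ^ (2 * m - 1) * (1 / 2) := by
      conv_lhs => rw [e]
      rw [pow_succ]
    have h2 : ((1:ℝ) / 2) ^ (2 * m) = (1 / 4) ^ m := by
      rw [pow_mul]
      norm_num
    linarith
  rw [← Finset.sum_sub_distrib]
  refine (Finset.abs_sum_le_sum_abs _ _).trans ?_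
  have h1 : ∀ h ∈ X, |Real.arctan (t / h) -
      ∑ j ∈ range m, (-1 : ℝ) ^ j * (t / h) ^ (2 * j + 1) / (2 * j + 1)| ≤
      2 * (1 / 4) ^ m * t ^ 2 * (1 / (h : ℝ)) ^ 2 := by
    intro h hh
    have hh1 : 2 * R < h := hX h hh
    have hpos : (0:ℝ) < h := by linarith
    have hx0 : 0 < t / h := div_pos ht hpos
    have hx1 : t / h ≤ 1 / 2 := by
      rw [div_le_iff₀ hpos]
      linarith
    have h2 := hATN (t / h) m (by rw [abs_of_pos hx0]; exact hx1)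
    rw [abs_of_pos hx0] at h2
    refine h2.trans ?_
    have e : 2 * m + 1 = (2 * m - 1) + 2 := by omega
    have e2 : (t / h) ^ 2 = t ^ 2 * (1 / (h : ℝ)) ^ 2 := by
      rw [div_pow, div_pow, one_pow]
      ring
    rw [e, pow_add, e2, mul_assoc (2 * (1 / 4) ^ m), ← hpow]
    exact mul_le_mul_of_nonneg_right (pow_le_pow_left₀ hx0.le hx1 _) (by positivity)
  refine (Finset.sum_le_sum h1).trans ?_
  rw [← Finset.mul_sum]
  have h2 := hSQS X (2 * R) (by linarith) hX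
  calc 2 * (1 / 4) ^ m * t ^ 2 * ∑ i ∈ X, (1 / (i : ℝ)) ^ 2
      ≤ 2 * (1 / 4) ^ m * t ^ 2 * (2 / (2 * R)) :=
        mul_le_mul_of_nonneg_left h2 (by positivity)
    _ = 2 * (1 / 4) ^ m * t * (t / R) := by
        field_simp
    _ ≤ 2 * (1 / 4) ^ m * t * 1 :=
        mul_le_mul_of_nonneg_left ((div_le_one hR0).2 htR) (by positivity)
    _ = 2 * (1 / 4) ^ m * t := by ring

theorem main : S_SML := by
  intro hATN hSQS m F A B R t hm hFA hFB hR hA hB hj ht htR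
  have hR0 : 0 < R := by linarith
  have pA := part hATN hSQS hm hR ht htR (A \ F) hA
  have pB := part hATN hSQS hm hR ht htR (B \ F) hB
  have eA : th A t = ∑ h ∈ A \ F, Real.arctan (t / h) + ∑ h ∈ F, Real.arctan (t / h) :=
    (Finset.sum_sdiff hFA).symm
  have eB : th B t = ∑ h ∈ B \ F, Real.arctan (t / h) + ∑ h ∈ F, Real.arctan (t / h) :=
    (Finset.sum_sdiff hFB).symm
  have hM : ∀ X : Finset ℕ,
      ∑ h ∈ X, ∑ j ∈ range m, (-1 : ℝ) ^ j * (t / h) ^ (2 * j + 1) / (2 * j + 1) =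
      ∑ j ∈ range m, (-1 : ℝ) ^ j * t ^ (2 * j + 1) / (2 * j + 1) *
        ∑ h ∈ X, (1 / (h : ℝ)) ^ (2 * j + 1) := by
    intro X
    rw [Finset.sum_comm]
    refine Finset.sum_congr rfl fun j _ => ?_
    rw [Finset.mul_sum]
    refine Finset.sum_congr rfl fun h _ => ?_
    rw [div_pow, div_pow, one_pow]
    ring
  have hmain : |∑ h ∈ A \ F, ∑ j ∈ range m, (-1 : ℝ) ^ j * (t / h) ^ (2 * j + 1) / (2 * j + 1) -
      ∑ h ∈ B \ F, ∑ j ∈ range m, (-1 : ℝ) ^ j * (t / h) ^ (2 * j + 1) / (2 * j + 1)| ≤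
      m * ((1 / 4) ^ m * t) := by
    rw [hM, hM, ← Finset.sum_sub_distrib]
    refine (Finset.abs_sum_le_sum_abs _ _).trans ?_
    have h1 : ∀ j ∈ range m, |(-1 : ℝ) ^ j * t ^ (2 * j + 1) / (2 * j + 1) *
        (∑ h ∈ A \ F, (1 / (h : ℝ)) ^ (2 * j + 1)) -
        (-1 : ℝ) ^ j * t ^ (2 * j + 1) / (2 * j + 1) *
        (∑ h ∈ B \ F, (1 / (h : ℝ)) ^ (2 * j + 1))| ≤ (1 / 4) ^ m * t := by
      intro j hjm
      have h2 := hj j (Finset.mem_range.1 hjm)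
      rw [← mul_sub, abs_mul]
      have h3 : |(-1 : ℝ) ^ j * t ^ (2 * j + 1) / (2 * j + 1)| ≤ t * R ^ (2 * j) := by
        rw [abs_div, abs_mul, abs_pow, abs_neg, abs_one, one_pow, one_mul,
          abs_of_pos (pow_pos ht _), abs_of_pos (by positivity : (0:ℝ) < 2 * j + 1)]
        have h4 : t ^ (2 * j + 1) ≤ t * R ^ (2 * j) := by
          rw [pow_succ, mul_comm]
          exact mul_le_mul_of_nonneg_left (pow_le_pow_left₀ ht.le htR _) ht.le
        refine (div_le_self (by positivity) ?_).trans h4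
        have : (0:ℝ) ≤ j := Nat.cast_nonneg _
        linarith
      calc |(-1 : ℝ) ^ j * t ^ (2 * j + 1) / (2 * j + 1)| *
            |∑ h ∈ A \ F, (1 / (h : ℝ)) ^ (2 * j + 1) - ∑ h ∈ B \ F, (1 / (h : ℝ)) ^ (2 * j + 1)|
          ≤ t * R ^ (2 * j) *
            |∑ h ∈ A \ F, (1 / (h : ℝ)) ^ (2 * j + 1) - ∑ h ∈ B \ F, (1 / (h : ℝ)) ^ (2 * j + 1)| :=
            mul_le_mul_of_nonneg_right h3 (abs_nonneg _)
        _ = t * (R ^ (2 * j) *
            |∑ h ∈ A \ F, (1 / (h : ℝ)) ^ (2 * j + 1) -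
              ∑ h ∈ B \ F, (1 / (h : ℝ)) ^ (2 * j + 1)|) := by ring
        _ ≤ t * (1 / 4) ^ m := mul_le_mul_of_nonneg_left h2 ht.le
        _ = (1 / 4) ^ m * t := mul_comm _ _
    refine (Finset.sum_le_sum h1).trans (le_of_eq ?_)
    rw [Finset.sum_const, Finset.card_range, nsmul_eq_mul]
  have htot : |th A t - th B t| ≤ (m + 4) * ((1 / 4) ^ m * t) := by
    rw [eA, eB]
    rw [abs_le] at pA pB hmain ⊢
    constructor <;> linarith [pA.1, pA.2, pB.1, pB.2, hmain.1, hmain.2]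
  refine htot.trans ?_
  have h1 : ((m : ℝ) + 4) ≤ 4 * 2 ^ m := by
    have h2 : m + 1 ≤ 2 ^ m := Nat.lt_two_pow_self
    have h3 : (m : ℝ) + 1 ≤ 2 ^ m := by exact_mod_cast h2
    have h4 : (0:ℝ) ≤ m := Nat.cast_nonneg _
    linarith
  have h2 : ((1:ℝ) / 4) ^ m = (1 / 2) ^ m * (1 / 2) ^ m := by
    rw [← mul_pow]
    norm_num
  have h3 : (2:ℝ) ^ m * (1 / 2) ^ m = 1 := by
    rw [← mul_pow]
    norm_num
  calc ((m : ℝ) + 4) * ((1 / 4) ^ m * t) ≤ 4 * 2 ^ m * ((1 / 4) ^ m * t) :=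
        mul_le_mul_of_nonneg_right h1 (by positivity)
    _ = 4 * (1 / 2) ^ m * t * (2 ^ m * (1 / 2) ^ m) := by
        rw [h2]
        ring
    _ = 4 * (1 / 2) ^ m * t := by rw [h3, mul_one]

end Pool.Agent.N707.FR_SML
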