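import Pool.Agent.N404.EX.Stm

/-! The complement of a perfect matching in a cubic graph is the union of the circuits of a permutation. -/

set_option autoImplicit false

namespace Pool.Agent.N707.EXPERM

open Finset Classical

/-- every `v` has exactly two neighbours for `H`, interchanged by `oth v` -/
structure Two {V : Type} (H : V → V → Prop) (oth : V → V → V) : Prop where
  symm : ∀ u v, H u v → H v u
  irr : ∀ u, ¬ H u u
  adj : ∀ v u, H v u → H v (oth v u)
  ne : ∀ v u, H v u → oth v u ≠ u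
  only : ∀ v u z, H v u → H v z → z = u ∨ z = oth v u

theorem Two.oo {V : Type} {H : V → V → Prop} {oth : V → V → V} (h : Two H oth) (v u : V) (hu : H v u) :
    oth v (oth v u) = u := by
  rcases h.only v (oth v u) u (h.adj v u hu) hu with h1 | h1
  · exact absurd h1.symm (h.ne v u hu)
  · exact h1.symm

/-- the next dart -/
def nx {V : Type} {H : V → V → Prop} {oth : V → V → V} (h : Two H oth) : Equiv.Perm {p : V × V // H p.1 p.2} where
  toFun d := ⟨(d.1.2, oth d.1.2 d.1.1), h.adj _ _ (h.symm _ _ d.2)⟩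
  invFun d := ⟨(oth d.1.1 d.1.2, d.1.1), h.symm _ _ (h.adj _ _ d.2)⟩
  left_inv := by
    rintro ⟨⟨u, v⟩, hd⟩
    simp only [Subtype.mk.injEq, Prod.mk.injEq, and_true]
    exact h.oo v u (h.symm _ _ hd)
  right_inv := by
    rintro ⟨⟨u, v⟩, hd⟩
    simp only [Subtype.mk.injEq, Prod.mk.injEq, true_and]
    exact h.oo u v hd

/-- the reversed dart -/
def rv {V : Type} {H : V → V → Prop} {oth : V → V → V} (h : Two H oth) : Equiv.Perm {p : V × V // H p.1 p.2} where
  toFun d := ⟨(d.1.2, d.1.1), h.symm _ _ d.2⟩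
  invFun d := ⟨(d.1.2, d.1.1), h.symm _ _ d.2⟩
  left_inv := by rintro ⟨⟨u, v⟩, hd⟩; rfl
  right_inv := by rintro ⟨⟨u, v⟩, hd⟩; rfl

theorem rv_nx {V : Type} {H : V → V → Prop} {oth : V → V → V} (h : Two H oth) : rv h * nx h * (rv h)⁻¹ = (nx h)⁻¹ := by
  ext1 ⟨⟨u, v⟩, hd⟩
  rfl

theorem rv_zpow {V : Type} {H : V → V → Prop} {oth : V → V → V} (h : Two H oth) (k : ℤ) (d : {p : V × V // H p.1 p.2}) :
    rv h ((nx h ^ k) d) = (nx h ^ (-k)) (rv h d) := by
  have h1 : rv h * nx h ^ k * (rv h)⁻¹ = nx h ^ (-k) := by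
    rw [← conj_zpow, rv_nx, inv_zpow, zpow_neg]
  rw [← h1]
  simp

theorem not_same {V : Type} {H : V → V → Prop} {oth : V → V → V} (h : Two H oth) (d : {p : V × V // H p.1 p.2}) :
    ¬ (nx h).SameCycle d (rv h d) := by
  rintro ⟨k, hk⟩
  obtain ⟨m, hm | hm⟩ := Int.even_or_odd' k
  · have h1 : rv h ((nx h ^ m) d) = (nx h ^ m) d := by
      rw [rv_zpow, ← hk, ← Equiv.Perm.mul_apply, ← zpow_add]
      congr 2
      omega
    obtain ⟨⟨⟨u, v⟩, huv⟩, he⟩ : ∃ e, (nx h ^ m) d = e := ⟨_, rfl⟩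
    rw [he] at h1
    have h2 : v = u := congrArg (fun x => x.1.1) h1
    exact h.irr u (h2 ▸ huv)
  · have h1 : rv h ((nx h ^ m) d) = nx h ((nx h ^ m) d) := by
      rw [rv_zpow, ← hk, ← Equiv.Perm.mul_apply, ← zpow_add, ← Equiv.Perm.mul_apply, ← zpow_one_add]
      congr 2
      omega
    obtain ⟨⟨⟨u, v⟩, huv⟩, he⟩ : ∃ e, (nx h ^ m) d = e := ⟨_, rfl⟩
    rw [he] at h1
    have h2 : u = oth v u := congrArg (fun x => x.1.2) h1
    exact h.ne v u (h.symm _ _ huv) h2.symm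

/-- a consistent choice of one of the two darts of every edge -/
theorem select {V : Type} [Fintype V] {H : V → V → Prop} {oth : V → V → V} (h : Two H oth) :
    ∃ S : {p : V × V // H p.1 p.2} → Prop, (∀ d, S (nx h d) ↔ S d) ∧ ∀ d, S (rv h d) ↔ ¬ S d := by
  obtain ⟨c, hc⟩ : ∃ c : {p : V × V // H p.1 p.2} → {p : V × V // H p.1 p.2},
      ∀ x y, c x = c y ↔ (nx h).SameCycle x y := by
    refine ⟨fun d => Quotient.out (Quotient.mk (Equiv.Perm.SameCycle.setoid (nx h)) d), fun x y => ?_⟩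
    rw [Quotient.out_inj, Quotient.eq]
    rfl
  obtain ⟨e, he⟩ : ∃ e : {p : V × V // H p.1 p.2} → ℕ, Function.Injective e :=
    ⟨fun d => (Fintype.equivFin _ d : ℕ), fun x y hxy => (Fintype.equivFin _).injective (Fin.ext hxy)⟩
  refine ⟨fun d => e (c d) < e (c (rv h d)), fun d => ?_, fun d => ?_⟩
  · have h1 : c (nx h d) = c d := by
      rw [hc]
      exact ⟨-1, by simp⟩
    have h2 : c (rv h (nx h d)) = c (rv h d) := by
      rw [hc]
      refine ⟨1, ?_⟩
      have h3 := rv_zpow h 1 d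
      rw [zpow_one] at h3
      rw [h3]
      simp
    show e (c (nx h d)) < e (c (rv h (nx h d))) ↔ e (c d) < e (c (rv h d))
    rw [h1, h2]
  · have h1 : rv h (rv h d) = d := rfl
    have h2 : e (c d) ≠ e (c (rv h d)) := by
      intro h3
      exact not_same h d ((hc _ _).1 (he h3))
    show e (c (rv h d)) < e (c (rv h (rv h d))) ↔ ¬ e (c d) < e (c (rv h d))
    rw [h1]
    omega

theorem two_perm {V : Type} [Fintype V] {H : V → V → Prop} {oth : V → V → V} (h : Two H oth) (hne : ∀ u, ∃ v, H u v) :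
    ∃ σ : Equiv.Perm V, (∀ u, H u (σ u)) ∧ ∀ u, σ.symm u = oth u (σ u) := by
  obtain ⟨S, hS1, hS2⟩ := select h
  have key : ∀ (u a : V) (ha : H u a), S ⟨(u, oth u a), h.adj u a ha⟩ ↔ ¬ S ⟨(u, a), ha⟩ := by
    intro u a ha
    rw [← hS2 ⟨(u, a), ha⟩, ← hS1 (rv h ⟨(u, a), ha⟩)]
    rfl
  have key2 : ∀ (u a : V) (ha : H u a), S ⟨(a, u), h.symm u a ha⟩ ↔ ¬ S ⟨(u, a), ha⟩ := by
    intro u a ha
    exact hS2 ⟨(u, a), ha⟩
  have hs : ∀ u, ∃ v, ∃ hv : H u v, S ⟨(u, v), hv⟩ := by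
    intro u
    obtain ⟨a, ha⟩ := hne u
    by_cases hc : S ⟨(u, a), ha⟩
    · exact ⟨a, ha, hc⟩
    · exact ⟨oth u a, h.adj u a ha, (key u a ha).2 hc⟩
  choose s hs1 hs2 using hs
  have hinj : Function.Injective s := by
    intro u u' huu
    by_contra hne'
    have a1 := hs1 u
    have a2 := hs2 u
    have b1 := hs1 u'
    have b2 := hs2 u'
    obtain ⟨v, hv⟩ : ∃ v, s u = v := ⟨_, rfl⟩
    have hv' : s u' = v := by rw [← huu, hv]
    rw [hv'] at b1
    rw [hv] at a1
    have a3 : S ⟨(u, v), a1⟩ := by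
      have : (⟨(u, v), a1⟩ : {p : V × V // H p.1 p.2}) = ⟨(u, s u), hs1 u⟩ := by
        apply Subtype.ext
        show (u, v) = (u, s u)
        rw [hv]
      rw [this]; exact a2
    have b3 : S ⟨(u', v), b1⟩ := by
      have : (⟨(u', v), b1⟩ : {p : V × V // H p.1 p.2}) = ⟨(u', s u'), hs1 u'⟩ := by
        apply Subtype.ext
        show (u', v) = (u', s u')
        rw [hv']
      rw [this]; exact b2
    have c1 : ¬ S ⟨(v, u), h.symm u v a1⟩ := fun hh => ((key2 u v a1).1 hh) a3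
    have c2 : ¬ S ⟨(v, u'), h.symm u' v b1⟩ := fun hh => ((key2 u' v b1).1 hh) b3
    rcases h.only v u u' (h.symm _ _ a1) (h.symm _ _ b1) with h1 | h1
    · exact hne' h1.symm
    · apply c2
      have h2 := (key v u (h.symm _ _ a1)).2 c1
      have : (⟨(v, u'), h.symm u' v b1⟩ : {p : V × V // H p.1 p.2}) = ⟨(v, oth v u), h.adj v u (h.symm _ _ a1)⟩ := by
        apply Subtype.ext
        show (v, u') = (v, oth v u)
        rw [← h1]
      rw [this]; exact h2
  refine ⟨Equiv.ofBijective s (Finite.injective_iff_bijective.1 hinj), hs1, fun u => ?_⟩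
  rw [Equiv.symm_apply_eq]
  show u = s (oth u (s u))
  obtain ⟨w, hw⟩ : ∃ w, oth u (s u) = w := ⟨_, rfl⟩
  rw [hw]
  have h0 : H u w := hw ▸ h.adj u _ (hs1 u)
  have h1 : ¬ S ⟨(u, w), h0⟩ := by
    intro hh
    have h2 : S ⟨(u, oth u (s u)), h.adj u _ (hs1 u)⟩ := by
      have : (⟨(u, oth u (s u)), h.adj u _ (hs1 u)⟩ : {p : V × V // H p.1 p.2}) = ⟨(u, w), h0⟩ := by
        apply Subtype.ext
        show (u, oth u (s u)) = (u, w)
        rw [hw]
      rw [this]; exact hh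
    exact (key u (s u) (hs1 u)).1 h2 (hs2 u)
  have h2 : S ⟨(w, u), h.symm _ _ h0⟩ := (key2 u w h0).2 h1
  rcases h.only w u (s w) (h.symm _ _ h0) (hs1 w) with h3 | h3
  · exact h3.symm
  · exfalso
    have h4 : S ⟨(w, oth w u), h.adj w u (h.symm _ _ h0)⟩ := by
      have : (⟨(w, oth w u), h.adj w u (h.symm _ _ h0)⟩ : {p : V × V // H p.1 p.2}) = ⟨(w, s w), hs1 w⟩ := by
        apply Subtype.ext
        show (w, oth w u) = (w, s w)
        rw [h3]
      rw [this]; exact hs2 w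
    exact (key w u (h.symm _ _ h0)).1 h4 h2

theorem main : Pool.Agent.N404.EX.S_PERM := by
  intro V _ G hd M hM hMM
  have hex : ∀ v u : V, ∃ w, (G.Adj v u ∧ u ≠ M v) → ((G.Adj v w ∧ w ≠ M v) ∧ w ≠ u ∧
      ∀ z, (G.Adj v z ∧ z ≠ M v) → z = u ∨ z = w) := by
    intro v u
    by_cases hu : G.Adj v u ∧ u ≠ M v
    · have h1 : (((G.neighborFinset v).erase (M v)).erase u).card = 1 := by
        rw [card_erase_of_mem, card_erase_of_mem, G.card_neighborFinset_eq_degree, hd]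
        · rw [G.mem_neighborFinset]; exact hM v
        · rw [mem_erase, G.mem_neighborFinset]; exact ⟨hu.2, hu.1⟩
      obtain ⟨w, hw⟩ := card_eq_one.1 h1
      have h2 : ∀ z, z ∈ ((G.neighborFinset v).erase (M v)).erase u ↔ z = w := by
        intro z
        rw [hw, mem_singleton]
      have h3 := (h2 w).2 rfl
      rw [mem_erase, mem_erase, G.mem_neighborFinset] at h3
      refine ⟨w, fun _ => ⟨⟨h3.2.2, h3.2.1⟩, h3.1, fun z hz => ?_⟩⟩
      by_cases hzu : z = u
      · exact Or.inl hzu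
      · right
        apply (h2 z).1
        rw [mem_erase, mem_erase, G.mem_neighborFinset]
        exact ⟨hzu, hz.2, hz.1⟩
    · exact ⟨u, fun h => absurd h hu⟩
  choose oth hoth using hex
  have h : Two (fun u v => G.Adj u v ∧ v ≠ M u) oth :=
    { symm := by
        rintro u v ⟨h1, h2⟩
        refine ⟨h1.symm, fun h3 => h2 ?_⟩
        rw [h3, hMM]
      irr := fun u hu => G.irrefl hu.1
      adj := fun v u hu => (hoth v u hu).1
      ne := fun v u hu => (hoth v u hu).2.1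
      only := fun v u z hu hz => (hoth v u hu).2.2 z hz }
  obtain ⟨σ, h1, h2⟩ := two_perm h (fun u => by
    have h1 : ((G.neighborFinset u).erase (M u)).card = 2 := by
      rw [card_erase_of_mem, G.card_neighborFinset_eq_degree, hd]
      rw [G.mem_neighborFinset]; exact hM u
    obtain ⟨v, hv⟩ : ((G.neighborFinset u).erase (M u)).Nonempty := by
      rw [← card_pos, h1]; norm_num
    rw [mem_erase, G.mem_neighborFinset] at hv
    exact ⟨v, hv.2, hv.1⟩)
  refine ⟨σ, hMM, fun u v => ⟨fun huv => ?_, fun huv => ?_⟩, fun v => ⟨fun h3 => (h1 v).2 h3.symm, fun h3 => ?_, fun h3 => ?_⟩⟩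
  · by_cases hv : v = M u
    · exact Or.inl hv
    · right
      rw [h2 u]
      exact h.only u (σ u) v (h1 u) ⟨huv, hv⟩
  · rcases huv with rfl | rfl | rfl
    · exact hM u
    · exact (h1 u).1
    · rw [h2 u]
      exact (h.adj u (σ u) (h1 u)).1
  · rw [h2 v] at h3
    exact (h.adj v (σ v) (h1 v)).2 h3.symm
  · rw [h2 v] at h3
    exact h.ne v (σ v) (h1 v) h3.symm

end Pool.Agent.N707.EXPERM
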