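import Pool.Agent.N709.UM.Stm

/-! A continuous pseudonorm which generates the neighbourhoods of the identity of a locally compact first countable
group. -/

set_option autoImplicit false

open Filter Topology

universe u

namespace Pool.Agent.N707.UMNRM

open Pool.Agent.N709.UM (PN)

variable {G : Type u} [Group G]

theorem PN.nonneg {N : G → ℝ} (h : PN N) (g : G) : 0 ≤ N g := by
  have h1 := h.mul g g⁻¹
  rw [mul_inv_cancel, h.one, h.inv] at h1
  linarith

theorem PN.sub_le {N : G → ℝ} (h : PN N) (g k : G) : |N g - N k| ≤ N (g * k⁻¹) := by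
  have h1 := h.mul (g * k⁻¹) k
  have h2 := h.mul (k * g⁻¹) g
  have h3 : N (k * g⁻¹) = N (g * k⁻¹) := by
    rw [← h.inv (k * g⁻¹), mul_inv_rev, inv_inv]
  rw [inv_mul_cancel_right] at h1 h2
  rw [abs_le]
  constructor <;> linarith

/-- the pseudonorm of a bounded function -/
noncomputable def pn (f : G → ℝ) (g : G) : ℝ := ⨆ x, |f (g * x) - f x|

theorem bdd {f : G → ℝ} (hf : ∀ x, f x ∈ Set.Icc (0 : ℝ) 1) (g : G) : BddAbove (Set.range fun x => |f (g * x) - f x|) := by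
  refine ⟨1, ?_⟩
  rintro _ ⟨x, rfl⟩
  have h1 := hf (g * x)
  have h2 := hf x
  rw [Set.mem_Icc] at h1 h2
  show |f (g * x) - f x| ≤ 1
  rw [abs_le]
  constructor <;> linarith

theorem le_pn {f : G → ℝ} (hf : ∀ x, f x ∈ Set.Icc (0 : ℝ) 1) (g x : G) : |f (g * x) - f x| ≤ pn f g :=
  le_ciSup (bdd hf g) x

theorem pn_le {f : G → ℝ} {g : G} {c : ℝ} (h : ∀ x, |f (g * x) - f x| ≤ c) : pn f g ≤ c := ciSup_le h

theorem pn_le_one {f : G → ℝ} (hf : ∀ x, f x ∈ Set.Icc (0 : ℝ) 1) (g : G) : pn f g ≤ 1 := by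
  apply pn_le
  intro x
  have h1 := hf (g * x)
  have h2 := hf x
  rw [Set.mem_Icc] at h1 h2
  rw [abs_le]
  constructor <;> linarith

theorem pn_pn {f : G → ℝ} (hf : ∀ x, f x ∈ Set.Icc (0 : ℝ) 1) : PN (pn f) where
  one := by
    unfold pn
    simp
  inv := by
    have h : ∀ g, pn f g⁻¹ ≤ pn f g := by
      intro g
      apply pn_le
      intro x
      have h1 := le_pn hf g (g⁻¹ * x)
      rw [mul_inv_cancel_left, abs_sub_comm] at h1
      exact h1
    intro g
    apply le_antisymm (h g)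
    have := h g⁻¹
    rwa [inv_inv] at this
  mul g h := by
    apply pn_le
    intro x
    have h1 := le_pn hf g (h * x)
    have h2 := le_pn hf h x
    rw [mul_assoc]
    calc |f (g * (h * x)) - f x| = |(f (g * (h * x)) - f (h * x)) + (f (h * x) - f x)| := by ring_nf
      _ ≤ |f (g * (h * x)) - f (h * x)| + |f (h * x) - f x| := abs_add_le _ _
      _ ≤ _ := by linarith

theorem small [TopologicalSpace G] [IsTopologicalGroup G] {f : G → ℝ} (hc : Continuous f) (hs : HasCompactSupport f)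
    {ε : ℝ} (hε : 0 < ε) : ∀ᶠ g in 𝓝 (1 : G), pn f g ≤ ε := by
  let _ := IsTopologicalGroup.rightUniformSpace G
  have h1 : UniformContinuous f := hs.uniformContinuous_of_continuous hc
  have h2 := h1 (Metric.dist_mem_uniformity hε)
  rw [uniformity_eq_comap_nhds_one' G, Filter.mem_map, Filter.mem_comap] at h2
  obtain ⟨V, hV, hV2⟩ := h2
  filter_upwards [hV] with g hg
  apply pn_le
  intro x
  have h3 : (x, g * x) ∈ (fun p : G × G => p.2 * p.1⁻¹) ⁻¹' V := by
    show g * x * x⁻¹ ∈ V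
    rwa [mul_inv_cancel_right]
  have h4 : dist (f x) (f (g * x)) < ε := hV2 h3
  rw [dist_comm, Real.dist_eq] at h4
  exact h4.le

theorem cont [TopologicalSpace G] [IsTopologicalGroup G] {f : G → ℝ} (hf : ∀ x, f x ∈ Set.Icc (0 : ℝ) 1)
    (hc : Continuous f) (hs : HasCompactSupport f) : Continuous (pn f) := by
  rw [continuous_iff_continuousAt]
  intro k
  rw [ContinuousAt, Metric.tendsto_nhds]
  intro ε hε
  have h1 := small hc hs (half_pos hε)
  have h2 : Tendsto (fun g : G => g * k⁻¹) (𝓝 k) (𝓝 1) := by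
    have : Tendsto (fun g : G => g * k⁻¹) (𝓝 k) (𝓝 (k * k⁻¹)) := (continuous_mul_const k⁻¹).tendsto k
    rwa [mul_inv_cancel] at this
  filter_upwards [h2.eventually h1] with g hg
  rw [Real.dist_eq]
  have := PN.sub_le (pn_pn hf) g k
  linarith

theorem nrm : Pool.Agent.N709.UM.Nrm.{u} := by
  intro G _ _ _ _ _ _
  obtain ⟨V, hV⟩ := (𝓝 (1 : G)).exists_antitone_basis
  have hex : ∀ n : ℕ, ∃ f : C(G, ℝ), f 1 = 1 ∧ (∀ g, f g ≠ 0 → g ∈ V n) ∧ HasCompactSupport f ∧
      ∀ x, f x ∈ Set.Icc (0 : ℝ) 1 := by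
    intro n
    obtain ⟨f, h1, h2, h3, h4⟩ := exists_continuous_one_zero_of_isCompact (isCompact_singleton (x := (1 : G)))
      (isOpen_interior (s := V n)).isClosed_compl (by
        rw [Set.disjoint_compl_right_iff_subset, Set.singleton_subset_iff, mem_interior_iff_mem_nhds]
        exact hV.mem n)
    refine ⟨f, h1 rfl, fun g hg => ?_, h3, h4⟩
    by_contra hcon
    apply hg
    apply h2
    exact fun h => hcon (interior_subset h)
  choose f hf1 hf2 hf3 hf4 using hex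
  have hb : ∀ n g, ‖(1 / 2 : ℝ) ^ n * pn (f n) g‖ ≤ (1 / 2 : ℝ) ^ n := by
    intro n g
    have h1 := PN.nonneg (pn_pn (hf4 n)) g
    have h2 := pn_le_one (hf4 n) g
    have h3 : (0 : ℝ) < (1 / 2) ^ n := by positivity
    rw [Real.norm_eq_abs, abs_of_nonneg (mul_nonneg h3.le h1)]
    exact mul_le_of_le_one_right h3.le h2
  have hgeo : Summable (fun n : ℕ => (1 / 2 : ℝ) ^ n) := summable_geometric_two
  have hsum : ∀ g, Summable (fun n : ℕ => (1 / 2 : ℝ) ^ n * pn (f n) g) := fun g =>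
    Summable.of_norm_bounded hgeo (fun n => hb n g)
  refine ⟨fun g => ∑' n : ℕ, (1 / 2 : ℝ) ^ n * pn (f n) g, ⟨?_, ?_, ?_⟩, ?_, ?_⟩
  · have : ∀ n : ℕ, (1 / 2 : ℝ) ^ n * pn (f n) 1 = 0 := fun n => by rw [(pn_pn (hf4 n)).one, mul_zero]
    simp only [this, tsum_zero]
  · intro g
    simp only [(pn_pn (hf4 _)).inv g]
  · intro g h
    show ∑' n : ℕ, (1 / 2 : ℝ) ^ n * pn (f n) (g * h) ≤
      ∑' n : ℕ, (1 / 2 : ℝ) ^ n * pn (f n) g + ∑' n : ℕ, (1 / 2 : ℝ) ^ n * pn (f n) h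
    rw [← (hsum g).tsum_add (hsum h)]
    apply (hsum (g * h)).tsum_le_tsum _ ((hsum g).add (hsum h))
    intro n
    rw [← mul_add]
    exact mul_le_mul_of_nonneg_left ((pn_pn (hf4 n)).mul g h) (by positivity)
  · exact continuous_tsum (fun n => continuous_const.mul (cont (hf4 n) (f n).continuous (hf3 n))) hgeo hb
  · intro U hU
    obtain ⟨n, hn⟩ := hV.mem_iff.1 hU
    refine ⟨(1 / 2) ^ n, by positivity, fun g hg => ?_⟩
    apply hn
    apply hf2
    intro h0
    have h3 : (0 : ℝ) < (1 / 2) ^ n := by positivity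
    have h1 : (1 / 2 : ℝ) ^ n * pn (f n) g ≤ ∑' n : ℕ, (1 / 2 : ℝ) ^ n * pn (f n) g :=
      (hsum g).le_tsum n (fun m _ => mul_nonneg (by positivity) (PN.nonneg (pn_pn (hf4 m)) g))
    have h2 : pn (f n) g < 1 := by
      have h4 : (1 / 2 : ℝ) ^ n * pn (f n) g < (1 / 2 : ℝ) ^ n * 1 := by
        rw [mul_one]; exact lt_of_le_of_lt h1 hg
      exact lt_of_mul_lt_mul_left h4 h3.le
    have h5 := le_pn (hf4 n) g 1
    rw [mul_one, h0, hf1 n] at h5
    norm_num at h5
    linarith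

end Pool.Agent.N707.UMNRM
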