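import Pool.Agent.N894.WF.Defs

/-!
# Project WF (helper894), leaf C1: transfer
-/

set_option autoImplicit false

namespace Pool.Agent.N707.WF

open N894.WF

/-- a function which transforms like `α` -/
theorem exA {H M : Type} [Group H] [CommGroup M] (C : Subgroup H) (α : C →* M) :
    ∃ A : H → M, ∀ (c : C) (h : H), A ((c : H) * h) = α c * A h := by
  obtain ⟨ρ, hρ⟩ : ∃ ρ : H → H, ∀ h, ρ h = (Quotient.mk (QuotientGroup.rightRel C) h).out :=
    ⟨_, fun _ => rfl⟩
  have h1 : ∀ h, h * (ρ h)⁻¹ ∈ C := by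
    intro h
    have h2 : (QuotientGroup.rightRel C) (ρ h) h := by
      rw [hρ]
      exact Quotient.exact (Quotient.out_eq (Quotient.mk (QuotientGroup.rightRel C) h))
    exact QuotientGroup.rightRel_apply.1 h2
  have h2 : ∀ (c : C) (h : H), ρ (c * h) = ρ h := by
    intro c h
    rw [hρ, hρ]
    have h3 : Quotient.mk (QuotientGroup.rightRel C) ((c : H) * h) =
        Quotient.mk (QuotientGroup.rightRel C) h := by
      refine Quotient.sound ?_
      show (QuotientGroup.rightRel C) _ _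
      rw [QuotientGroup.rightRel_apply, mul_inv_rev, mul_inv_cancel_left]
      exact C.inv_mem c.2
    rw [h3]
  refine ⟨fun h => α ⟨h * (ρ h)⁻¹, h1 h⟩, fun c h => ?_⟩
  show α ⟨(c : H) * h * (ρ (c * h))⁻¹, h1 _⟩ = α c * α ⟨h * (ρ h)⁻¹, h1 h⟩
  rw [← map_mul]
  refine congrArg α (Subtype.ext ?_)
  show (c : H) * h * (ρ (c * h))⁻¹ = c * (h * (ρ h)⁻¹)
  rw [h2, mul_assoc]

theorem mk_eq {H : Type} [Group H] (C : Subgroup H) (y x : H) :
    Quotient.mk (QuotientGroup.rightRel C) y = Quotient.mk (QuotientGroup.rightRel C) x ↔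
      y * x⁻¹ ∈ C := by
  rw [Quotient.eq]
  show (QuotientGroup.rightRel C) y x ↔ _
  rw [QuotientGroup.rightRel_apply, ← C.inv_mem_iff, mul_inv_rev, inv_inv]

theorem ind_eq {H S : Type} [Group H] (C : Subgroup H) (x : H) (s : S) (y : H) (s' : S) :
    ind C x s y s' = Finsupp.single (Quotient.mk (QuotientGroup.rightRel C) y, s') (1 : ℤ)
      (Quotient.mk (QuotientGroup.rightRel C) x, s) := by
  classical
  unfold ind
  rw [Finsupp.single_apply]
  by_cases h : s' = s ∧ y * x⁻¹ ∈ C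
  · rw [if_pos h, if_pos]
    exact Prod.ext ((mk_eq C y x).2 h.2) h.1
  · rw [if_neg h, if_neg]
    intro h1
    exact h ⟨congrArg Prod.snd h1, (mk_eq C y x).1 (congrArg Prod.fst h1)⟩

theorem t_C1 : LeafC1 := by
  intro H S _ φ C M _ α ι _ k a b p g lam hc hg hid
  classical
  obtain ⟨A, hA⟩ := exA C α
  have hA' : ∀ (c h : H) (hcC : c ∈ C), A (c * h) = α ⟨c, hcC⟩ * A h :=
    fun c h hcC => hA ⟨c, hcC⟩ h
  obtain ⟨B, hB⟩ : ∃ B : Quotient (QuotientGroup.rightRel C) × S → M, ∀ (h : H) (s : S),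
      B (Quotient.mk (QuotientGroup.rightRel C) h, s) = (A h)⁻¹ * A (h * φ s) := by
    refine ⟨fun q => Quotient.lift (fun h => (A h)⁻¹ * A (h * φ q.2)) (fun x y hxy => ?_) q.1,
      fun h s => rfl⟩
    have h1 : y * x⁻¹ ∈ C := QuotientGroup.rightRel_apply.1 hxy
    have h2 : y = y * x⁻¹ * x := by group
    show (A x)⁻¹ * A (x * φ q.2) = (A y)⁻¹ * A (y * φ q.2)
    have h3 : A y = α ⟨y * x⁻¹, h1⟩ * A x := by
      conv_lhs => rw [h2]
      exact hA' _ _ h1
    have h4 : A (y * φ q.2) = α ⟨y * x⁻¹, h1⟩ * A (x * φ q.2) := by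
      rw [← hA' _ _ h1]
      congr 1
      group
    rw [h3, h4, mul_inv]
    generalize α ⟨y * x⁻¹, h1⟩ = u
    generalize A x = v
    generalize A (x * φ q.2) = w
    rw [mul_comm u⁻¹ v⁻¹, mul_assoc, inv_mul_cancel_left]
  obtain ⟨L, hL⟩ : ∃ L : (Quotient (QuotientGroup.rightRel C) × S →₀ ℤ) →ₗ[ℤ] Additive M,
      ∀ q, L (Finsupp.single q 1) = Additive.ofMul (B q) := by
    refine ⟨Finsupp.linearCombination ℤ (fun q => Additive.ofMul (B q)), fun q => ?_⟩
    rw [Finsupp.linearCombination_single, one_smul]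
  have hE : (∑ i, lam i • (Finsupp.single (Quotient.mk (QuotientGroup.rightRel C) (k i), a i) (1 : ℤ)
      + Finsupp.single (Quotient.mk (QuotientGroup.rightRel C) (k i * φ (a i)), b i) (1 : ℤ)
      - Finsupp.single (Quotient.mk (QuotientGroup.rightRel C)
          (k i * φ (a i) * φ (b i) * (φ (p i))⁻¹), p i) (1 : ℤ))) =
      Finsupp.single (Quotient.mk (QuotientGroup.rightRel C) (1 : H), g) (1 : ℤ) := by
    refine Finsupp.ext ?_
    rintro ⟨q, s⟩
    induction q using Quotient.inductionOn with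
    | _ x =>
      rw [← ind_eq, ← hid x s, Finsupp.finsetSum_apply]
      refine Finset.sum_congr rfl fun i _ => ?_
      rw [Finsupp.smul_apply, Finsupp.sub_apply, Finsupp.add_apply, smul_eq_mul, ← ind_eq,
        ← ind_eq, ← ind_eq]
      rfl
  have h1 := congrArg L hE
  rw [map_sum, hL] at h1
  have h2 : ∀ i, L (lam i • (Finsupp.single
      (Quotient.mk (QuotientGroup.rightRel C) (k i), a i) (1 : ℤ)
      + Finsupp.single (Quotient.mk (QuotientGroup.rightRel C) (k i * φ (a i)), b i) (1 : ℤ)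
      - Finsupp.single (Quotient.mk (QuotientGroup.rightRel C)
          (k i * φ (a i) * φ (b i) * (φ (p i))⁻¹), p i) (1 : ℤ))) =
      lam i • Additive.ofMul (α ⟨_, hc i⟩) := by
    intro i
    rw [map_smul, map_sub, map_add, hL, hL, hL, hB, hB, hB]
    congr 1
    have h3 : A (k i * φ (a i) * φ (b i) * (φ (p i))⁻¹) = α ⟨_, hc i⟩ * A (k i) := by
      rw [← hA' _ _ (hc i)]
      congr 1
      group
    have h4 : k i * φ (a i) * φ (b i) * (φ (p i))⁻¹ * φ (p i) = k i * φ (a i) * φ (b i) := by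
      group
    rw [h4, h3, ← ofMul_mul, ← ofMul_div]
    congr 1
    generalize α ⟨_, hc i⟩ = u
    generalize A (k i) = v
    generalize A (k i * φ (a i)) = w
    generalize A (k i * φ (a i) * φ (b i)) = t
    rw [mul_inv, div_eq_mul_inv]
    simp only [mul_inv, inv_inv]
    calc v⁻¹ * w * (w⁻¹ * t) * (u * v * t⁻¹) = (v⁻¹ * v) * (w * w⁻¹) * (t * t⁻¹) * u := by
          ac_rfl
      _ = u := by simp
  simp only [h2] at h1
  rw [hB, one_mul] at h1
  have h5 : A (φ g) = α ⟨φ g, hg⟩ * A 1 := by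
    rw [← hA' _ _ hg, mul_one]
  rw [h5, mul_comm (α ⟨φ g, hg⟩), inv_mul_cancel_left] at h1
  have h6 := congrArg Additive.toMul h1
  rw [toMul_sum] at h6
  simp only [toMul_zsmul, toMul_ofMul] at h6
  exact h6.symm

end Pool.Agent.N707.WF
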